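import Pool.Agent.Mg.F160dec.G4aa943

namespace Pool.Agent.Results.MP_160dec_gt.Metrizable

open Pool.Agent.MP_160dec_gt

universe u

/-- Every Tychonoff space that is t-extral and t-extendial is metrizable. -/
theorem result (X : Type u) [TopologicalSpace X] [T35Space X]
    (extral : TExtral X) (extendial : TExtendial X) :
    TopologicalSpace.MetrizableSpace X :=
  metrizable_of_tExtral_tExtendial X extral extendial

end Pool.Agent.Results.MP_160dec_gt.Metrizable
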