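import Pool.Agent.MP_160dec_gt.Cube

namespace Pool.Agent.Results.MP_160dec_gt.OntoCube

open Pool.Agent.MP_160dec_gt

universe u

/-- For an uncountable index set `ι`: every t-extral Tychonoff space of weight at least the
cardinality of `ι` maps continuously onto the Tychonoff cube with index set `ι` if and only if
that cardinality has uncountable cofinality. -/
theorem result (ι : Type u) (hι : Cardinal.aleph0 < Cardinal.mk ι) :
    (∀ (X : Type u) [TopologicalSpace X] [T35Space X], TExtral X →
      (∀ B : Set (Set X), TopologicalSpace.IsTopologicalBasis B →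
        Cardinal.mk ι ≤ Cardinal.mk B) →
      ∃ g : X → (ι → unitInterval), Continuous g ∧ Function.Surjective g) ↔
    Cardinal.aleph0 < (Cardinal.mk ι).ord.cof :=
  Cube.cube_iff ι hι

end Pool.Agent.Results.MP_160dec_gt.OntoCube
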